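import Pool.Agent.Lib.Forcing.Defs

/-!
The notions of the problem, relativised to a transitive class `N` of sets. Functions are sets
of ordered pairs, `omega` is the set of von Neumann natural numbers, and for ordinals `a ∈ b`
means `a < b`.
-/

universe u

namespace Pool.Agent.P.MP_af0a18_lc

open ZFSet

/-- `N` satisfies the axiom of choice. -/
def Choice (N : Set ZFSet.{u}) : Prop :=
  ∀ x ∈ N, ∅ ∉ x → ∃ f ∈ N, IsFunc x (⋃₀ x) f ∧ ∀ y z, pair y z ∈ f → z ∈ y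

/-- `N` contains a bijection from `μ` onto `A`. -/
def HasCard (N : Set ZFSet.{u}) (A μ : ZFSet.{u}) : Prop :=
  ∃ f ∈ N, IsFunc μ A f ∧ ∀ y ∈ A, ∃! x, pair x y ∈ f

/-- `N` satisfies `|A| < κ`: `A` is in bijection with an ordinal below `κ`. -/
def CardLt (N : Set ZFSet.{u}) (A κ : ZFSet.{u}) : Prop := ∃ μ ∈ κ, HasCard N A μ

/-- `N` satisfies: `κ` is a cardinal. -/
def IsCardinalIn (N : Set ZFSet.{u}) (κ : ZFSet.{u}) : Prop := κ.IsOrdinal ∧ ¬ CardLt N κ κ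

/-- The set `{α ∈ A | f α < g α}`. -/
def below (A f g : ZFSet.{u}) : ZFSet.{u} :=
  A.sep fun α => ∃ a, pair α a ∈ f ∧ ∃ b, pair α b ∈ g ∧ a ∈ b

/-- `N` satisfies `D(ν, κ)`. -/
def PrincipleD (N : Set ZFSet.{u}) (ν κ : ZFSet.{u}) : Prop :=
  ∀ F ∈ N, (∀ f ∈ F, IsFunc ν omega f) → CardLt N F κ →
    ∃ g ∈ N, IsFunc ν omega g ∧ ∀ f ∈ F, HasCard N (below ν f g) ν

/-- `N` satisfies `E(ν, κ)`. -/
def PrincipleE (N : Set ZFSet.{u}) (ν κ : ZFSet.{u}) : Prop :=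
  ∀ F ∈ N, ∀ 𝒜 ∈ N, (∀ f ∈ F, IsFunc ν omega f) → (∀ A ∈ 𝒜, A ⊆ ν ∧ HasCard N A ν) →
    CardLt N F κ → CardLt N 𝒜 κ →
    ∃ g ∈ N, IsFunc ν omega g ∧ ∀ f ∈ F, ∀ A ∈ 𝒜, HasCard N (below A f g) ν

end Pool.Agent.P.MP_af0a18_lc
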