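import Pool.Agent.P.MP_af0a18_lc.Ground
import Pool.Agent.P.MP_af0a18_lc.Defs

/-!
Cardinality inside a transitive model, and the forcing argument.
-/

universe u

set_option synthInstance.maxSize 16384

namespace Pool.Agent.P.MP_af0a18_lc

open ZFSet Pool.Agent.Lib.Forcing

/-- `N` contains a function whose restriction to `a` covers `X`. -/
def Surj (N : Set ZFSet.{u}) (a X : ZFSet.{u}) : Prop :=
  ∃ r ∈ N, Fn r ∧ ∀ y ∈ X, ∃ x ∈ a, pair x y ∈ r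

theorem isOrdinal_omega : omega.{u}.IsOrdinal := omega_eq ▸ isOrdinal_toZFSet _

variable {N : Set ZFSet.{u}}

theorem Surj.mono {a a' X X' : ZFSet.{u}} (h : Surj N a X) (ha : a ⊆ a') (hX : X' ⊆ X) :
    Surj N a' X' := by
  obtain ⟨r, hr, h1, h2⟩ := h
  exact ⟨r, hr, h1, fun y hy => (h2 y (hX hy)).imp fun _ h => ⟨ha h.1, h.2⟩⟩

theorem fn_of_isFunc {a b f : ZFSet.{u}} (h : IsFunc a b f) : Fn f := fun x _ h1 _ h2 =>
  (h.2 x (pair_mem_prod.1 (h.1 h1)).1).unique h1 h2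

theorem HasCard.surj {A μ : ZFSet.{u}} (h : HasCard N A μ) : Surj N μ A := by
  obtain ⟨f, hf, h1, h2⟩ := h
  refine ⟨f, hf, fn_of_isFunc h1, fun y hy => ?_⟩
  obtain ⟨x, hx, -⟩ := h2 y hy
  exact ⟨x, (pair_mem_prod.1 (h1.1 hx)).1, hx⟩

section
variable [hN : ZFm N]

theorem Surj.trans {a b c : ZFSet.{u}} (ha : a ∈ N) (hc : c ∈ N) (h1 : Surj N a b)
    (h2 : Surj N b c) : Surj N a c := by
  obtain ⟨r, hr, h1, h1'⟩ := h1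
  obtain ⟨s, hs, h2, h2'⟩ := h2
  have := InM.mk hr
  have := InM.mk hs
  obtain ⟨t, ht, -, Ht⟩ := exists_pairSep (M := N)
    (fun x z => ∃ y, pair x y ∈ r ∧ pair y z ∈ s) ha hc
  refine ⟨t, ht, fun x z h z' h' => ?_, fun z hz => ?_⟩
  · obtain ⟨-, -, y, h3, h4⟩ := (Ht _ _).1 h
    obtain ⟨-, -, y', h5, h6⟩ := (Ht _ _).1 h'
    obtain rfl := h1 x y h3 y' h5
    exact h2 y z h4 z' h6
  · obtain ⟨y, hy, h3⟩ := h2' z hz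
    obtain ⟨x, hx, h4⟩ := h1' y hy
    exact ⟨x, hx, (Ht _ _).2 ⟨hx, hz, y, h4, h3⟩⟩

theorem Surj.refl {a : ZFSet.{u}} (ha : a ∈ N) : Surj N a a := by
  obtain ⟨t, ht, -, Ht⟩ := exists_pairSep (M := N) (fun x z => x = z) ha ha
  exact ⟨t, ht, fun x z h z' h' => ((Ht _ _).1 h).2.2.symm.trans ((Ht _ _).1 h').2.2,
    fun z hz => ⟨z, hz, (Ht _ _).2 ⟨hz, hz, rfl⟩⟩⟩

theorem HasCard.surj' {A μ : ZFSet.{u}} (hA : A ∈ N) (hμ : μ ∈ N) (h : HasCard N A μ) :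
    Surj N A μ := by
  obtain ⟨f, hf, h1, h2⟩ := h
  have := InM.mk hf
  obtain ⟨t, ht, -, Ht⟩ := exists_pairSep (M := N) (fun y x => pair x y ∈ f) hA hμ
  refine ⟨t, ht, fun y x h x' h' => ?_, fun x hx => ?_⟩
  · exact (h2 y ((Ht _ _).1 h).1).unique ((Ht _ _).1 h).2.2 ((Ht _ _).1 h').2.2
  · obtain ⟨y, hy, -⟩ := h1.2 x hx
    have := (pair_mem_prod.1 (h1.1 hy)).2
    exact ⟨y, this, (Ht _ _).2 ⟨this, hx, hy⟩⟩

theorem Surj.hasCard {α X : ZFSet.{u}} (hα : α ∈ N) (ho : α.IsOrdinal) (hX : X ∈ N)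
    (h : Surj N α X) : ∃ μ ∈ N, μ.IsOrdinal ∧ μ ⊆ α ∧ HasCard N X μ := by
  obtain ⟨r, hr, h1, h2⟩ := h
  have := InM.mk hr
  have := InM.mk hX
  have hA := sep_mem (fun ξ => ∃ y ∈ X, pair ξ y ∈ r ∧ ∀ ξ' ∈ ξ, ¬ pair ξ' y ∈ r) hα
  set A := α.sep (fun ξ => ∃ y ∈ X, pair ξ y ∈ r ∧ ∀ ξ' ∈ ξ, ¬ pair ξ' y ∈ r)
  have := InM.mk hA
  obtain ⟨c, hc⟩ := exists_collapse (A : Set ZFSet.{u})
  simp only [SetLike.mem_coe] at hc
  have hT : Tm N (fun e => c (e 0)) := by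
    refine mem_recursion c (fun x f z => (∀ w ∈ z, ∃ y ∈ x, y ∈ A ∧ pair y w ∈ f) ∧
      ∀ y ∈ x, y ∈ A → ∀ w, pair y w ∈ f → w ∈ z) ?_
    intro x hx f hf Hf
    have := InM.mk hf
    constructor
    · obtain ⟨b, hb, Hb⟩ := exists_image c (fun w y => pair y w ∈ f)
        (sep_mem (fun y => y ∈ A) hx)
        (fun y hy => snd_mem hf ((Hf y (mem_sep.1 hy).1 _).2 rfl))
        (fun y hy w _ => Hf y (mem_sep.1 hy).1 w)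
      convert hb using 1
      ext z
      simp only [hc, Hb, mem_sep, and_assoc]
    · intro z _
      constructor
      · rintro ⟨h3, h4⟩
        ext w
        rw [hc]
        constructor
        · intro hw
          obtain ⟨y, hy, h5, h6⟩ := h3 w hw
          exact ⟨y, hy, h5, ((Hf y hy w).1 h6).symm⟩
        · rintro ⟨y, hy, h5, rfl⟩
          exact h4 y hy h5 _ ((Hf y hy _).2 rfl)
      · rintro rfl
        refine ⟨fun w hw => ?_, fun y hy h5 w hw => (hc _ _).2 ⟨y, hy, h5, ((Hf y hy w).1 hw).symm⟩⟩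
        obtain ⟨y, hy, h5, rfl⟩ := (hc _ _).1 hw
        exact ⟨y, hy, h5, (Hf y hy _).2 rfl⟩
  have hT' : ∀ (s : Env.{u} → ZFSet.{u}) [Tm N s], Tm N (fun e => c (s e)) :=
    fun s _ => hT.apply1 s
  have h3 : ∀ ξ : ZFSet.{u}, ξ.IsOrdinal → (c ξ).IsOrdinal ∧ c ξ ⊆ ξ := by
    intro ξ
    induction ξ using ZFSet.inductionOn with
    | h ξ ih =>
      intro hξ
      constructor
      · refine isOrdinal_iff_forall_mem_isOrdinal.2 ⟨fun z hz w hw => ?_, fun z hz => ?_⟩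
        · obtain ⟨η, h3, -, rfl⟩ := (hc _ _).1 hz
          obtain ⟨η', h4, h5, rfl⟩ := (hc _ _).1 hw
          exact (hc _ _).2 ⟨η', hξ.mem_trans h4 h3, h5, rfl⟩
        · obtain ⟨η, h3, -, rfl⟩ := (hc _ _).1 hz
          exact (ih η h3 (hξ.mem h3)).1
      · intro z hz
        obtain ⟨η, h3, -, rfl⟩ := (hc _ _).1 hz
        exact (ih η h3 (hξ.mem h3)).1.mem_of_subset_of_mem hξ (ih η h3 (hξ.mem h3)).2 h3
  have h4 : ∀ η ∈ A, ∀ η' ∈ A, c η = c η' → η = η' := by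
    intro η hη η' hη' h
    rcases (ho.mem (mem_sep.1 hη).1).mem_trichotomous (ho.mem (mem_sep.1 hη').1) with h' | h' | h'
    · exact (mem_irrefl (c η') ((hc _ _).2 ⟨η, h', hη, h⟩)).elim
    · exact h'
    · exact (mem_irrefl (c η) ((hc _ _).2 ⟨η', h', hη', h.symm⟩)).elim
  obtain ⟨b, hb, hb', Hb⟩ := exists_pairSep (M := N)
    (fun x y => ∃ η ∈ A, x = c η ∧ pair η y ∈ r) (hT.mem1 hα) hX
  refine ⟨c α, hT.mem1 hα, (h3 α ho).1, (h3 α ho).2, b, hb, ⟨hb', fun x hx => ?_⟩, fun y hy => ?_⟩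
  · obtain ⟨η, -, h5, rfl⟩ := (hc _ _).1 hx
    obtain ⟨y, hy, h6, -⟩ := (mem_sep.1 h5).2
    refine ⟨y, (Hb _ _).2 ⟨hx, hy, η, h5, rfl, h6⟩, fun y' h => ?_⟩
    obtain ⟨-, -, η', h7, h8, h9⟩ := (Hb _ _).1 h
    obtain rfl := h4 η h5 η' h7 h8
    exact h1 η y' h9 y h6
  · obtain ⟨ξ, ⟨h5, h6⟩, h7⟩ := mem_wf.has_min {ξ | ξ ∈ α ∧ pair ξ y ∈ r} (h2 y hy)
    have h8 : ξ ∈ A := mem_sep.2 ⟨h5, y, hy, h6, fun ξ' h h' => h7 ξ' ⟨ho.mem_trans h h5, h'⟩ h⟩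
    refine ⟨c ξ, (Hb _ _).2 ⟨(hc _ _).2 ⟨ξ, h5, h8, rfl⟩, hy, ξ, h8, rfl, h6⟩, fun x h => ?_⟩
    obtain ⟨-, -, η, h9, rfl, h10⟩ := (Hb _ _).1 h
    obtain ⟨h11, y', -, h12, h13⟩ := mem_sep.1 h9
    obtain rfl := h1 η y h10 y' h12
    rcases (ho.mem h11).mem_trichotomous (ho.mem h5) with h' | h' | h'
    exacts [(h7 η ⟨h11, h10⟩ h').elim, congrArg c h', (h13 ξ h' h6).elim]

theorem choice_of_enum (h : ∀ x ∈ N, ∃ α ∈ N, α.IsOrdinal ∧ Surj N α x) : Choice N := by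
  intro x hx h0
  obtain ⟨α, hα, ho, r, hr, h1, h2⟩ := h _ (sUnion_mem hx)
  have := InM.mk hr
  have := InM.mk hα
  obtain ⟨f, hf, hf', Hf⟩ := exists_pairSep (M := N)
    (fun y z => z ∈ y ∧ ∃ ξ ∈ α, pair ξ z ∈ r ∧ ∀ ξ' ∈ ξ, ∀ z', pair ξ' z' ∈ r → ¬ z' ∈ y)
    hx (sUnion_mem hx)
  refine ⟨f, hf, ⟨hf', fun y hy => ?_⟩, fun y z h => ((Hf _ _).1 h).2.2.1⟩
  obtain ⟨z0, hz0⟩ := (eq_empty_or_nonempty y).resolve_left fun h => h0 (h ▸ hy)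
  obtain ⟨ξ0, h3, h4⟩ := h2 z0 (mem_sUnion.2 ⟨y, hy, hz0⟩)
  obtain ⟨ξ, ⟨h5, z, h6, h7⟩, h8⟩ :=
    mem_wf.has_min {ξ | ξ ∈ α ∧ ∃ z, pair ξ z ∈ r ∧ z ∈ y} ⟨ξ0, h3, z0, h4, hz0⟩
  refine ⟨z, (Hf _ _).2 ⟨hy, mem_sUnion.2 ⟨y, hy, h7⟩, h7, ξ, h5, h6,
    fun ξ' h z' h' h'' => h8 ξ' ⟨ho.mem_trans h h5, z', h', h''⟩ h⟩, fun z' h => ?_⟩
  obtain ⟨-, -, h9, η, h10, h11, h12⟩ := (Hf _ _).1 h
  rcases (ho.mem h10).mem_trichotomous (ho.mem h5) with h' | rfl | h'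
  exacts [(h8 η ⟨h10, z', h11, h9⟩ h').elim, h1 η z' h11 z h6, (h12 ξ h' z h6 h7).elim]

theorem exists_kappa (hpow : ∀ x ∈ N, ∃ y ∈ N, ∀ z ∈ N, z ⊆ x → z ∈ y)
    (h : ∀ x ∈ N, ∃ α ∈ N, α.IsOrdinal ∧ Surj N α x) {I : ZFSet.{u}} (hI : I ∈ N) :
    ∃ κ ∈ N, IsCardinalIn N κ ∧ ∀ X ∈ N, (CardLt N X κ ↔ Surj N I X) := by
  obtain ⟨y, hy, Hy⟩ := hpow I hI
  obtain ⟨α, hα, ho, h1⟩ := h y hy
  have h2 : ¬ Surj N I α := by
    intro h2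
    obtain ⟨r, hr, h3, h4⟩ := h2.trans hI hy h1
    have := InM.mk hr
    have h5 := sep_mem (fun i => ¬ ∃ z, pair i z ∈ r ∧ i ∈ z) hI
    obtain ⟨i, hi, h6⟩ := h4 _ (Hy _ h5 sep_subset)
    have h7 : i ∈ I.sep (fun i => ¬ ∃ z, pair i z ∈ r ∧ i ∈ z) := mem_sep.2 ⟨hi, by
      rintro ⟨z, h7, h8⟩
      have h9 := h8
      rw [h3 i z h7 _ h6] at h9
      exact (mem_sep.1 h9).2 ⟨z, h7, h8⟩⟩
    exact (mem_sep.1 h7).2 ⟨_, h6, h7⟩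
  obtain ⟨κ, ⟨hκ, hκo, h3⟩, h4⟩ :=
    mem_wf.has_min {κ | κ ∈ N ∧ κ.IsOrdinal ∧ ¬ Surj N I κ} ⟨α, hα, ho, h2⟩
  have h5 : ∀ X ∈ N, CardLt N X κ → Surj N I X := by
    rintro X hX ⟨μ, hμ, h5⟩
    refine Surj.trans hI hX ?_ h5.surj
    by_contra h6
    exact h4 μ ⟨mem_of_mem hκ hμ, hκo.mem hμ, h6⟩ hμ
  refine ⟨κ, hκ, ⟨hκo, fun h => h3 (h5 κ hκ h)⟩, fun X hX => ⟨h5 X hX, fun h6 => ?_⟩⟩
  obtain ⟨β, hβ, hβo, h7⟩ := h X hX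
  obtain ⟨μ, hμ, hμo, -, h8⟩ := h7.hasCard hβ hβo hX
  refine ⟨μ, ?_, h8⟩
  by_contra h9
  exact h3 ((h6.trans hI hμ (h8.surj' hX hμ)).mono subset_rfl ((hμo.notMem_iff_subset hκo).1 h9))

end

theorem exists_model : ∃ N : Set ZFSet.{u}, IsZFModel N ∧ Choice N ∧ ∃ ν ∈ N, ∃ κ ∈ N,
    IsCardinalIn N ν ∧ omega ∈ ν ∧ (∀ μ ∈ ν, IsCardinalIn N μ → μ ⊆ omega) ∧
    IsCardinalIn N κ ∧ PrincipleD N ν κ ∧ ¬ PrincipleE N ν κ := by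
  obtain ⟨M, j, hMc, hj⟩ := exists_countable_isElem.{u}
  have hM := hj.isZFModel
  have := hM.zfm
  obtain ⟨w, -, ν, hν, I, hI, P, hPM, le, hle, lev, hlev, h1, hνo, hων, hωI, g3, g4,
    ⟨hP0, g5a, g5b, g5c⟩, ⟨g6a, g6b⟩, g7, g8, g9, g10a, g10b⟩ := hj.sentence Good good_univ
  obtain rfl := isOmega_iff.1 h1
  have hP : IsForcing P le := ⟨fun z hz => mem_prod.2 (g5a z hz), g5b,
    fun p q r h h' => g5c r q h p h'⟩
  obtain ⟨H, -, hH⟩ := exists_generic hMc hP hP0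
  have hN := hM.genericExt hP hPM hle hH
  have := hN.zfm
  have hMN := subset_genericExt hP hPM hH
  have hHN := generic_mem hP hPM hH
  have nice := fun Z a => exists_nice (Z := Z) (a := a) hP hPM hle hH
  have cover := fun x => exists_cover (x := x) hP hPM hH
  have below' := fun R hR => @IsGeneric.below M P le H _ hP hPM hle hH R hR
  obtain ⟨p0, hp0⟩ := hH.nonempty hP hPM
  generalize genericExt M H = N at *
  have iν := InM.mk hν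
  have iI := InM.mk hI
  have iP := InM.mk hPM
  have ile := InM.mk hle
  have ilev := InM.mk hlev
  have iν' := InM.mk (hMN hν)
  have iH' := InM.mk hHN
  have ilev' := InM.mk (hMN hlev)
  have hωN : omega ∈ N := omega_mem
  have enum : ∀ x ∈ N, ∃ α ∈ N, α.IsOrdinal ∧ Surj N α x := by
    intro x hx
    obtain ⟨T, hT, v, hv, h2, h3⟩ := cover x hx
    obtain ⟨α, hα, ho, r, hr, h4, h5⟩ := g4 T hT
    exact ⟨α, hMN hα, ho, Surj.trans (hMN hα) hx ⟨r, hMN hr, h4, h5⟩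
      ⟨v, hv, fun a b h c h' => h2 a b c h h', h3⟩⟩
  have ctbl : ∀ μ ∈ ν, Surj N omega μ := fun μ hμ => by
    obtain ⟨r, hr, h2, h3⟩ := g3 μ hμ
    exact ⟨r, hMN hr, h2, h3⟩
  -- a countable union of bounded subsets of `ν` is bounded
  have cf : ∀ Z ∈ N, (∀ n ∈ omega, ∃ β ∈ ν, ∀ γ ∈ ν, pair n γ ∈ Z → γ ⊆ β) →
      ∃ β ∈ ν, ∀ n ∈ omega, ∀ γ ∈ ν, pair n γ ∈ Z → γ ∈ β := by
    intro Z hZ h
    have := InM.mk hZ
    obtain ⟨f, hf, -, Hf⟩ := exists_pairSep (M := N)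
      (fun n β => (∀ γ ∈ ν, pair n γ ∈ Z → γ ⊆ β) ∧
        ∀ β' ∈ β, ¬ ∀ γ ∈ ν, pair n γ ∈ Z → γ ⊆ β') hωN (hMN hν)
    have hfn : Fn f := by
      intro n β h2 β' h3
      obtain ⟨-, h4, h5, h6⟩ := (Hf _ _).1 h2
      obtain ⟨-, h7, h8, h9⟩ := (Hf _ _).1 h3
      rcases (hνo.mem h4).mem_trichotomous (hνo.mem h7) with h | h | h
      exacts [(h9 β h h5).elim, h, (h6 β' h h8).elim]
    obtain ⟨S, hS, -, h2, h3⟩ := nice f _ hf (prod_mem omega_mem hν)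
    have := InM.mk hS
    obtain ⟨W, hW, -, HW⟩ := exists_pairSep (M := M)
      (fun x r => pair x r ∈ S ∧ ∃ n γ, x = pair n γ ∧
        ∀ s, pair s r ∈ le → ∀ γ' ∈ ν, pair (pair n γ') s ∈ S → γ' = γ)
      (prod_mem omega_mem hν) hPM
    obtain ⟨β, hβ, h4⟩ := g8 W hW (by
      intro n _ γ _ γ' hγ' r h4 r' h5 s h6 h7
      obtain ⟨-, -, -, n1, γ1, h8, h9⟩ := (HW _ _).1 h4
      obtain ⟨rfl, rfl⟩ := pair_inj.1 h8
      exact (h9 s h6 γ' hγ' (h2 _ _ _ ((HW _ _).1 h5).2.2.1 h7)).symm)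
    refine ⟨β, hβ, fun n hn γ hγ hZ' => ?_⟩
    obtain ⟨δ, ⟨h5, h6⟩, h7⟩ :=
      mem_wf.has_min {β | β ∈ ν ∧ ∀ γ ∈ ν, pair n γ ∈ Z → γ ⊆ β} (h n hn)
    have h8 : pair n δ ∈ f := (Hf _ _).2 ⟨hn, h5, h6,
      fun β' h h' => h7 β' ⟨hνo.mem_trans h h5, h'⟩ h⟩
    obtain ⟨p, hp, h9⟩ := (h3 _ (pair_mem_prod.2 ⟨hn, h5⟩)).1 h8
    have := InM.mk (mem_of_mem omega_mem hn : n ∈ M)
    have := InM.mk (mem_of_mem hν h5)
    have := InM.mk hW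
    obtain ⟨q, hq, h10⟩ := below' (fun q => pair (pair n δ) q ∈ W ∨
      ∃ γ' ∈ ν, γ' ≠ δ ∧ pair (pair n γ') q ∈ S) inferInstance hp (by
        intro q hq
        by_cases h10 : ∀ s, pair s q ∈ le → ∀ γ' ∈ ν, pair (pair n γ') s ∈ S → γ' = δ
        · exact ⟨q, hP.rfl' hq, Or.inl ((HW _ _).2 ⟨pair_mem_prod.2 ⟨hn, h5⟩, hP.left hq,
            h2 _ _ _ h9 hq, n, δ, rfl, h10⟩)⟩
        · push Not at h10
          obtain ⟨s, h10, γ', h11, h12, h13⟩ := h10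
          exact ⟨s, h10, Or.inr ⟨γ', h11, h13, h12⟩⟩)
    rcases h10 with h10 | ⟨γ', h10, h11, h12⟩
    · exact (hνo.mem hγ).mem_of_subset_of_mem (hνo.mem hβ) (h6 γ hγ hZ')
        (h4 n hn δ h5 q (hH.subset hq) h10)
    · exact (h11 (hfn n γ' ((h3 _ (pair_mem_prod.2 ⟨hn, h10⟩)).2 ⟨q, hq, h12⟩) δ h8)).elim
  have h0ν : ∅ ∈ ν := hνo.mem_trans omega_zero hων
  have bdd : ∀ A, A ⊆ ν → Surj N omega A → ∃ β ∈ ν, A ⊆ β := by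
    rintro A hA ⟨r, hr, h2, h3⟩
    obtain ⟨β, hβ, h4⟩ := cf r hr (fun n _ => by
      by_cases h : ∃ γ ∈ ν, pair n γ ∈ r
      · obtain ⟨γ, hγ, h⟩ := h
        exact ⟨γ, hγ, fun γ' _ h' => (h2 n γ' h' γ h).le⟩
      · exact ⟨∅, h0ν, fun γ hγ h' => (h ⟨γ, hγ, h'⟩).elim⟩)
    refine ⟨β, hβ, fun γ hγ => ?_⟩
    obtain ⟨n, hn, h5⟩ := h3 γ hγ
    exact h4 n hn γ (hA hγ) h5
  have unb : ∀ A ∈ N, A ⊆ ν → (∀ β ∈ ν, ∃ γ ∈ A, β ⊆ γ) → HasCard N A ν := by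
    intro A hA h2 h3
    obtain ⟨μ, hμ, ho, h4, h5⟩ := ((Surj.refl (hMN hν)).mono subset_rfl h2).hasCard (hMN hν) hνo hA
    rcases (ho.subset_iff_eq_or_mem hνo).1 h4 with rfl | h6
    · exact h5
    · obtain ⟨β, hβ, h7⟩ := bdd A h2 ((ctbl μ h6).trans hωN hA h5.surj)
      obtain ⟨γ, hγ, h8⟩ := h3 β hβ
      exact (mem_irrefl γ (h8 (h7 hγ))).elim
  obtain ⟨κ, hκ, hκc, Hκ⟩ := exists_kappa hN.powerSet enum (hMN hI)
  refine ⟨N, hN, choice_of_enum enum, ν, hMN hν, κ, hκ, ⟨hνo, ?_⟩, hων, ?_, hκc, ?_, ?_⟩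
  · rintro ⟨μ, hμ, h⟩
    obtain ⟨β, hβ, h2⟩ := bdd ν subset_rfl ((ctbl μ hμ).trans hωN (hMN hν) h.surj)
    exact mem_irrefl β (h2 hβ)
  · intro μ hμ hc
    obtain ⟨μ', -, ho, h2, h3⟩ :=
      (ctbl μ hμ).hasCard hωN isOrdinal_omega (mem_of_mem (hMN hν) hμ)
    by_contra h4
    exact hc.2 ⟨μ', ho.mem_of_subset_of_mem hc.1 h2
      ((hc.1.not_subset_iff_mem isOrdinal_omega).1 h4), h3⟩
  · -- the principle D
    intro F hF hFf hFκ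
    obtain ⟨r, hr, h2, h3⟩ := (Hκ F hF).1 hFκ
    have := InM.mk hr
    obtain ⟨Z, hZ, -, HZ⟩ := exists_pairSep (M := N)
      (fun x k => ∃ i α, x = pair i α ∧ ∃ f, pair i f ∈ r ∧ pair α k ∈ f)
      (hMN (prod_mem hI hν)) hωN
    obtain ⟨S, hS, -, h4, h5⟩ := nice Z _ hZ (prod_mem (prod_mem hI hν) omega_mem)
    have := InM.mk hS
    obtain ⟨W, hW, -, HW⟩ := exists_pairSep (M := M)
      (fun x q => (∃ k ∈ omega, pair (pair x k) q ∈ S) ∨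
        ∀ s, pair s q ∈ le → ∀ k ∈ omega, ¬ pair (pair x k) s ∈ S) (prod_mem hI hν) hPM
    obtain ⟨c, hc, h6, h7, h8⟩ := g9 W hW (by
      intro i hi α hα p hp
      by_cases h : ∀ s, pair s p ∈ le → ∀ k ∈ omega, ¬ pair (pair (pair i α) k) s ∈ S
      · exact ⟨p, hP.refl p hp, (HW _ _).2 ⟨pair_mem_prod.2 ⟨hi, hα⟩, hp, Or.inr h⟩⟩
      · push Not at h
        obtain ⟨s, h6, k, h7, h8⟩ := h
        exact ⟨s, h6, (HW _ _).2 ⟨pair_mem_prod.2 ⟨hi, hα⟩, hP.left h6, Or.inl ⟨k, h7, h8⟩⟩⟩)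
    have := InM.mk hc
    have := InM.mk (hMN hc)
    obtain ⟨g, hg, hg', Hg⟩ := exists_pairSep (M := N)
      (fun α k => ∃ i, pair α i ∈ c ∧ ∃ p ∈ H, pair (pair i α) k ∈ p) (hMN hν) hωN
    refine ⟨g, hg, ⟨hg', fun α hα => ?_⟩, fun f hf => ?_⟩
    · obtain ⟨i, hi, h9⟩ := h7 α hα
      have := InM.mk (mem_of_mem hI hi)
      have := InM.mk (mem_of_mem hν hα)
      obtain ⟨q, hq, k, hk, h10⟩ := below' (fun q => ∃ k ∈ omega, pair (pair i α) k ∈ q)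
        inferInstance hp0 (fun q hq => g7 q (hP.left hq) i hi α hα)
      refine ⟨k, (Hg _ _).2 ⟨hα, hk, i, h9, q, hq, h10⟩, fun k' h => ?_⟩
      obtain ⟨-, -, i', h11, q', hq', h12⟩ := (Hg _ _).1 h
      obtain rfl := h6 α i h9 i' h11
      obtain ⟨s, hs, h13, h14⟩ := hH.directed q hq q' hq'
      exact (g6b s (hH.subset hs)).1 _ _ (g6a _ _ h14 h12) _ (g6a _ _ h13 h10)
    · obtain ⟨i, hi, h9⟩ := h3 f hf
      have := InM.mk (mem_of_mem hF hf)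
      have := InM.mk hg
      refine unb _ (sep_mem _ (hMN hν)) sep_subset fun β hβ => ?_
      have := InM.mk (mem_of_mem hI hi)
      have := InM.mk (mem_of_mem hν hβ)
      obtain ⟨q, hq, α, hα, h10, h11⟩ := below' (fun q => ∃ α ∈ ν, β ∈ α ∧
        ((∃ k ∈ omega, pair (pair (pair i α) k) q ∈ S ∧
            ∃ i', pair α i' ∈ c ∧ pair (pair i' α) (insert k k) ∈ q) ∨
          ∀ s, pair s q ∈ le → ∀ k ∈ omega, ¬ pair (pair (pair i α) k) s ∈ S))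
        inferInstance hp0 (by
          intro q hq
          obtain ⟨α, hα, h10, t, -, h11, h12⟩ := h8 i hi β hβ q (hP.left hq)
          obtain ⟨i', -, h13⟩ := h7 α hα
          rcases ((HW _ _).1 h11).2.2 with ⟨k, hk, h14⟩ | h14
          · obtain ⟨s, h15, h16, h17⟩ := h12 i' h13 _ (omega_succ hk)
            exact ⟨s, h15, α, hα, h10, Or.inl ⟨k, hk, h4 _ _ _ h14 h16, i', h13, h17⟩⟩
          · obtain ⟨s, h15, h16, -⟩ := h12 i' h13 _ omega_zero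
            exact ⟨s, h15, α, hα, h10, Or.inr fun s' h => h14 s' (hP.trans _ _ _ h h16)⟩)
      refine ⟨α, mem_sep.2 ⟨hα, ?_⟩, (hνo.mem hα).subset_of_mem h10⟩
      have hiα := pair_mem_prod.2 ⟨hi, hα⟩
      rcases h11 with ⟨k, hk, h11, i', h12, h13⟩ | h11
      · obtain ⟨-, -, i1, α1, h14, f1, h15, h16⟩ :=
          (HZ _ _).1 ((h5 _ (pair_mem_prod.2 ⟨hiα, hk⟩)).2 ⟨q, hq, h11⟩)
        obtain ⟨rfl, rfl⟩ := pair_inj.1 h14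
        obtain rfl := h2 i f h9 f1 h15
        exact ⟨k, h16, _, (Hg _ _).2 ⟨hα, omega_succ hk, i', h12, q, hq, h13⟩, mem_insert _ _⟩
      · exfalso
        obtain ⟨k, h12, -⟩ := (hFf f hf).2 α hα
        have hk := (pair_mem_prod.1 ((hFf f hf).1 h12)).2
        obtain ⟨p, hp, h13⟩ := (h5 _ (pair_mem_prod.2 ⟨hiα, hk⟩)).1
          ((HZ _ _).2 ⟨hiα, hk, i, α, rfl, f, h9, h12⟩)
        obtain ⟨s, -, h14, h15⟩ := hH.directed p hp q hq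
        exact h11 s h15 k hk (h4 _ _ _ h13 h14)
  · -- the principle E fails
    intro hE
    obtain ⟨Pw, hPw, HPw⟩ := hN.powerSet ν (hMN hν)
    obtain ⟨r, hr, -, Hr⟩ := exists_pairSep (M := N)
      (fun S A => A ⊆ ν ∧ ∀ ξ ∈ ν, (ξ ∈ A ↔ ∃ p ∈ H, pair ξ p ∈ S)) (hMN hI) hPw
    have := InM.mk hr
    have h𝒜 := sep_mem (fun A => (∃ S, pair S A ∈ r ∧ A ⊆ ν) ∧ ∀ β ∈ ν, ∃ γ ∈ A, β ⊆ γ) hPw
    set 𝒜 := Pw.sep (fun A => (∃ S, pair S A ∈ r ∧ A ⊆ ν) ∧ ∀ β ∈ ν, ∃ γ ∈ A, β ⊆ γ)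
    obtain ⟨Pw', hPw', HPw'⟩ := hN.powerSet _ (prod_mem (hMN hν) hωN)
    obtain ⟨s, hs, -, Hs⟩ := exists_pairSep (M := N)
      (fun m f => (∀ z ∈ f, ∃ α ∈ ν, z = pair α m) ∧ ∀ α ∈ ν, pair α m ∈ f) hωN hPw'
    have := InM.mk hs
    have hF := sep_mem (fun f => ∃ m ∈ omega, pair m f ∈ s) hPw'
    set F := Pw'.sep (fun f => ∃ m ∈ omega, pair m f ∈ s)
    obtain ⟨g, hg, hgf, Hg⟩ := hE F hF 𝒜 h𝒜 (by
        intro f hf
        obtain ⟨m, hm, h⟩ := (mem_sep.1 hf).2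
        obtain ⟨-, -, h2, h3⟩ := (Hs _ _).1 h
        refine ⟨fun z hz => ?_, fun α hα => ⟨m, h3 α hα, fun k hk => ?_⟩⟩
        · obtain ⟨α, hα, rfl⟩ := h2 z hz
          exact pair_mem_prod.2 ⟨hα, hm⟩
        · obtain ⟨α', -, h⟩ := h2 _ hk
          exact (pair_inj.1 h).2)
      (by
        intro A hA
        obtain ⟨h2, ⟨S, -, h3⟩, h4⟩ := mem_sep.1 hA
        exact ⟨h3, unb A (mem_of_mem hPw h2) h3 h4⟩)
      ((Hκ F hF).2 ⟨s, hs, fun m f h f' h' => by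
          obtain ⟨-, -, h2, h3⟩ := (Hs _ _).1 h
          obtain ⟨-, -, h4, h5⟩ := (Hs _ _).1 h'
          ext z
          constructor
          · intro hz
            obtain ⟨α, hα, rfl⟩ := h2 z hz
            exact h5 α hα
          · intro hz
            obtain ⟨α, hα, rfl⟩ := h4 z hz
            exact h3 α hα,
        fun f hf => by
          obtain ⟨m, hm, h⟩ := (mem_sep.1 hf).2
          exact ⟨m, hωI hm, h⟩⟩)
      ((Hκ 𝒜 h𝒜).2 ⟨r, hr, fun S A h A' h' => by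
          obtain ⟨-, -, h2, h3⟩ := (Hr _ _).1 h
          obtain ⟨-, -, h4, h5⟩ := (Hr _ _).1 h'
          ext ξ
          exact ⟨fun h => (h5 ξ (h2 h)).2 ((h3 ξ (h2 h)).1 h),
            fun h => (h3 ξ (h4 h)).2 ((h5 ξ (h4 h)).1 h)⟩,
        fun A hA => by
          obtain ⟨S, h, -⟩ := (mem_sep.1 hA).2.1
          exact ⟨S, ((Hr _ _).1 h).1, h⟩⟩)
    have := InM.mk hg
    obtain ⟨Z, hZ, -, HZ⟩ := exists_pairSep (M := N) (fun m α => pair α m ∈ g) hωN (hMN hν)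
    obtain ⟨m, hm, h2⟩ : ∃ m ∈ omega, ∀ β ∈ ν, ∃ γ ∈ ν, pair γ m ∈ g ∧ ¬ γ ⊆ β := by
      by_contra hcon
      push Not at hcon
      obtain ⟨β, hβ, h⟩ := cf Z hZ (fun n hn => (hcon n hn).imp fun β h =>
        ⟨h.1, fun γ hγ h' => h.2 γ hγ ((HZ _ _).1 h').2.2⟩)
      obtain ⟨k, hk, -⟩ := hgf.2 β hβ
      have hk' := (pair_mem_prod.1 (hgf.1 hk)).2
      exact mem_irrefl β (h k hk' β hβ ((HZ _ _).2 ⟨hk', hβ, hk⟩))
    have := InM.mk (mem_of_mem hωN hm)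
    obtain ⟨S, hS, -, -, h3⟩ := nice _ _ (sep_mem (fun γ => pair γ m ∈ g) (hMN hν)) hν
    have := InM.mk hS
    have := InM.mk (hMN hS)
    obtain ⟨Y, hY, -, HY⟩ := exists_pairSep (M := N)
      (fun n ξ => ∃ p ∈ H, pair ξ p ∈ S ∧ pair p n ∈ lev) hωN (hMN hν)
    obtain ⟨n, hn, h4⟩ : ∃ n ∈ omega, ∀ β ∈ ν, ∃ γ ∈ ν, pair n γ ∈ Y ∧ ¬ γ ⊆ β := by
      by_contra hcon
      push Not at hcon
      obtain ⟨β, hβ, h⟩ := cf Y hY hcon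
      obtain ⟨γ, hγ, h4, h5⟩ := h2 β hβ
      obtain ⟨p, hp, h6⟩ := (h3 γ hγ).1 (mem_sep.2 ⟨hγ, h4⟩)
      obtain ⟨n, hn, h7⟩ := g10a p (hH.subset hp)
      exact h5 ((hνo.mem hβ).subset_of_mem (h n hn γ hγ ((HY _ _).2 ⟨hn, hγ, p, hp, h6, h7⟩)))
    have := InM.mk (mem_of_mem omega_mem hn : n ∈ M)
    have := InM.mk (mem_of_mem hωN hn)
    have := InM.mk hY
    obtain ⟨S', hS', h5, HS'⟩ := exists_pairSep (M := M)
      (fun ξ p => pair ξ p ∈ S ∧ pair p n ∈ lev) hν hPM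
    have h6 : S' ∈ I := g10b S' hS' n hn fun z hz => by
      obtain ⟨ξ, hξ, p, hp, rfl⟩ := mem_prod.1 (h5 hz)
      exact ⟨ξ, hξ, p, hp, rfl, ((HS' _ _).1 hz).2.2.2⟩
    have hA := sep_mem (fun ξ => pair n ξ ∈ Y) (hMN hν)
    have h7 : ν.sep (fun ξ => pair n ξ ∈ Y) ∈ 𝒜 := by
      refine mem_sep.2 ⟨HPw _ hA sep_subset, ⟨S', (Hr _ _).2 ⟨h6, HPw _ hA sep_subset,
        sep_subset, fun ξ hξ => ?_⟩, sep_subset⟩, fun β hβ => ?_⟩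
      · rw [mem_sep, HY]
        constructor
        · rintro ⟨-, -, -, p, hp, h⟩
          exact ⟨p, hp, (HS' _ _).2 ⟨hξ, hH.subset hp, h⟩⟩
        · rintro ⟨p, hp, h⟩
          exact ⟨hξ, hn, hξ, p, hp, ((HS' _ _).1 h).2.2⟩
      · obtain ⟨γ, hγ, h7, h8⟩ := h4 β hβ
        exact ⟨γ, mem_sep.2 ⟨hγ, h7⟩, ((hνo.mem hβ).subset_total (hνo.mem hγ)).resolve_right h8⟩
    have h8 : ν.prod {m} ∈ N := prod_mem (hMN hν) (singleton_mem (mem_of_mem hωN hm))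
    have h9 : ν.prod {m} ∈ Pw' := HPw' _ h8 fun z hz => by
      obtain ⟨α, hα, k, hk, rfl⟩ := mem_prod.1 hz
      exact pair_mem_prod.2 ⟨hα, mem_singleton.1 hk ▸ hm⟩
    have h10 : ν.prod {m} ∈ F := mem_sep.2 ⟨h9, m, hm, (Hs _ _).2 ⟨hm, h9, fun z hz => by
      obtain ⟨α, hα, k, hk, rfl⟩ := mem_prod.1 hz
      exact ⟨α, hα, by rw [mem_singleton.1 hk]⟩,
      fun α hα => pair_mem_prod.2 ⟨hα, mem_singleton.2 rfl⟩⟩⟩
    obtain ⟨b, -, h11, -⟩ := Hg _ h10 _ h7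
    obtain ⟨α, h12, -⟩ := h11.2 ∅ h0ν
    obtain ⟨h13, a, h14, k, h15, h16⟩ := mem_sep.1 (pair_mem_prod.1 (h11.1 h12)).2
    obtain ⟨hα, h17⟩ := mem_sep.1 h13
    obtain ⟨-, -, p, hp, h18, -⟩ := (HY _ _).1 h17
    have h19 := (mem_sep.1 ((h3 α hα).2 ⟨p, hp, h18⟩)).2
    rw [mem_singleton.1 (pair_mem_prod.1 h14).2, fn_of_isFunc hgf α k h15 m h19] at h16
    exact mem_irrefl m h16

end Pool.Agent.P.MP_af0a18_lc
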