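import Mathlib.SetTheory.Cardinal.Regular
import Mathlib.SetTheory.Cardinal.Ordinal
import Mathlib.SetTheory.ZFC.Cardinal
import Mathlib.Order.Zorn
import Mathlib.Data.Set.Card
import Pool.Agent.Lib.Forcing.Ctm

/-!
The combinatorial facts about the forcing of finite functions `I × ω₁ → ω`, `I = V_(ω₁ + ω)`,
proved in the universe and written so that they transfer to an elementary submodel.
-/

universe u

set_option synthInstance.maxSize 16384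

namespace Pool.Agent.P.MP_af0a18_lc

open ZFSet Pool.Agent.Lib.Forcing
open Ordinal hiding omega

/-- `r` is a single valued relation. -/
def Fn (r : ZFSet.{u}) : Prop := ∀ a b, pair a b ∈ r → ∀ c, pair a c ∈ r → b = c

instance udfFn (i : ℕ) : UDf.{u} (fun _ e => Fn (e i)) := by unfold Fn; infer_instance

def G3 (M : Set ZFSet.{u}) (w ν : ZFSet.{u}) : Prop :=
  ∀ μ ∈ ν, ∃ r ∈ M, Fn r ∧ ∀ y ∈ μ, ∃ n ∈ w, pair n y ∈ r

def G4 (M : Set ZFSet.{u}) : Prop :=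
  ∀ x ∈ M, ∃ α ∈ M, α.IsOrdinal ∧ ∃ r ∈ M, Fn r ∧ ∀ y ∈ x, ∃ ξ ∈ α, pair ξ y ∈ r

def G5 (P le : ZFSet.{u}) : Prop :=
  ∅ ∈ P ∧ (∀ z ∈ le, ∃ q ∈ P, ∃ p ∈ P, z = pair q p) ∧ (∀ p ∈ P, pair p p ∈ le) ∧
    ∀ r q, pair r q ∈ le → ∀ p, pair q p ∈ le → pair r p ∈ le

def G6 (w P le : ZFSet.{u}) : Prop :=
  (∀ q p, pair q p ∈ le → p ⊆ q) ∧ ∀ p ∈ P, Fn p ∧ ∀ x k, pair x k ∈ p → k ∈ w

def G7 (w ν I P le : ZFSet.{u}) : Prop :=
  ∀ p ∈ P, ∀ i ∈ I, ∀ α ∈ ν, ∃ q, pair q p ∈ le ∧ ∃ k ∈ w, pair (pair i α) k ∈ q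

def G8 (M : Set ZFSet.{u}) (w ν P le : ZFSet.{u}) : Prop :=
  ∀ W ∈ M, (∀ n ∈ w, ∀ γ ∈ ν, ∀ γ' ∈ ν, ∀ r, pair (pair n γ) r ∈ W → ∀ r', pair (pair n γ') r' ∈ W →
    ∀ s, pair s r ∈ le → pair s r' ∈ le → γ = γ') →
    ∃ β ∈ ν, ∀ n ∈ w, ∀ γ ∈ ν, ∀ r ∈ P, pair (pair n γ) r ∈ W → γ ∈ β

def G9 (M : Set ZFSet.{u}) (w ν I P le : ZFSet.{u}) : Prop :=
  ∀ W ∈ M, (∀ i ∈ I, ∀ α ∈ ν, ∀ p ∈ P, ∃ r, pair r p ∈ le ∧ pair (pair i α) r ∈ W) →
    ∃ c ∈ M, Fn c ∧ (∀ α ∈ ν, ∃ i ∈ I, pair α i ∈ c) ∧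
      ∀ i ∈ I, ∀ β ∈ ν, ∀ p ∈ P, ∃ α ∈ ν, β ∈ α ∧ ∃ r ∈ P, pair (pair i α) r ∈ W ∧
        ∀ i', pair α i' ∈ c → ∀ k ∈ w, ∃ q, pair q p ∈ le ∧ pair q r ∈ le ∧
          pair (pair i' α) k ∈ q

def G10 (M : Set ZFSet.{u}) (w ν I P lev : ZFSet.{u}) : Prop :=
  (∀ p ∈ P, ∃ n ∈ w, pair p n ∈ lev) ∧
    ∀ S ∈ M, ∀ n ∈ w, (∀ z ∈ S, ∃ ξ ∈ ν, ∃ p ∈ P, z = pair ξ p ∧ pair p n ∈ lev) → S ∈ I

instance (a b : ℕ) : UDf.{u} (fun M e => G3 M (e a) (e b)) := by unfold G3; infer_instance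
instance : UDf.{u} (fun M _ => G4 M) := by unfold G4; infer_instance
instance (a b : ℕ) : UDf.{u} (fun _ e => G5 (e a) (e b)) := by unfold G5; infer_instance
instance (a b c : ℕ) : UDf.{u} (fun _ e => G6 (e a) (e b) (e c)) := by unfold G6; infer_instance
instance (a b c d f : ℕ) : UDf.{u} (fun _ e => G7 (e a) (e b) (e c) (e d) (e f)) := by
  unfold G7; infer_instance
instance (a b c d : ℕ) : UDf.{u} (fun M e => G8 M (e a) (e b) (e c) (e d)) := by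
  unfold G8; infer_instance
instance (a b c d f : ℕ) : UDf.{u} (fun M e => G9 M (e a) (e b) (e c) (e d) (e f)) := by
  unfold G9; infer_instance
instance (a b c d f : ℕ) : UDf.{u} (fun M e => G10 M (e a) (e b) (e c) (e d) (e f)) := by
  unfold G10; infer_instance

def Good (M : Set ZFSet.{u}) : Prop :=
  ∃ w ∈ M, ∃ ν ∈ M, ∃ I ∈ M, ∃ P ∈ M, ∃ le ∈ M, ∃ lev ∈ M,
    IsOmega w ∧ ν.IsOrdinal ∧ w ∈ ν ∧ w ⊆ I ∧ G3 M w ν ∧ G4 M ∧ G5 P le ∧ G6 w P le ∧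
    G7 w ν I P le ∧ G8 M w ν P le ∧ G9 M w ν I P le ∧ G10 M w ν I P lev

instance : UDf.{u} (fun M _ => Good M) := by unfold Good; infer_instance

theorem omega_eq : omega.{u} = toZFSet ω := by
  ext x
  constructor
  · refine omega_induction (p := fun x => x ∈ toZFSet ω) ?_ ?_ x
    · rw [← toZFSet_zero, toZFSet_mem_toZFSet_iff]; exact omega0_pos
    · intro x hx
      obtain ⟨a, ha, rfl⟩ := mem_toZFSet_iff.1 hx
      rw [← toZFSet_add_one, toZFSet_mem_toZFSet_iff]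
      exact isSuccLimit_omega0.add_one_lt ha
  · intro hx
    obtain ⟨a, ha, rfl⟩ := mem_toZFSet_iff.1 hx
    obtain ⟨n, rfl⟩ := lt_omega0.1 ha
    clear ha hx
    induction n with
    | zero => simp
    | succ n ih => rw [Nat.cast_succ, toZFSet_add_one]; exact omega_succ ih

theorem mem_omega {x : ZFSet.{u}} : x ∈ omega ↔ ∃ n : ℕ, toZFSet n = x := by
  rw [omega_eq, mem_toZFSet_iff]
  constructor
  · rintro ⟨a, ha, rfl⟩
    obtain ⟨n, rfl⟩ := lt_omega0.1 ha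
    exact ⟨n, rfl⟩
  · rintro ⟨n, rfl⟩
    exact ⟨n, natCast_lt_omega0 n, rfl⟩

theorem countable_omega : (omega : Set ZFSet.{u}).Countable :=
  (Set.countable_range fun n : ℕ => toZFSet.{u} n).mono fun _ hx => mem_omega.1 hx

theorem exists_fn {x a : ZFSet.{u}} (f : x → ZFSet.{u}) (hf : Function.Injective f)
    (ha : ∀ y, f y ∈ a) : ∃ r, Fn r ∧ ∀ y ∈ x, ∃ n ∈ a, pair n y ∈ r := by
  refine ⟨range fun y : x => pair (f y) y, fun a b h c h' => ?_,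
    fun y hy => ⟨f ⟨y, hy⟩, ha _, mem_range.2 ⟨⟨y, hy⟩, rfl⟩⟩⟩
  obtain ⟨y, h⟩ := mem_range.1 h
  obtain ⟨y', h'⟩ := mem_range.1 h'
  obtain ⟨rfl, rfl⟩ := pair_inj.1 h
  obtain ⟨h1, rfl⟩ := pair_inj.1 h'
  rw [hf h1]

theorem g4 : G4 (Set.univ : Set ZFSet.{u}) := by
  intro x _
  let f : x → ZFSet.{u} := fun y => toZFSet (typein WellOrderingRel (equivShrink x y))
  have hf : Function.Injective f := fun y y' h =>
    (equivShrink x).injective ((typein _).injective (toZFSet_injective h))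
  obtain ⟨r, h1, h2⟩ := exists_fn (a := rk (range f)) f hf fun y => by
    rw [rk, toZFSet_mem_toZFSet_iff, ← rank_toZFSet (typein _ _)]
    exact rank_lt_of_mem (mem_range_self (f := f) y)
  exact ⟨_, trivial, isOrdinal_rk _, r, trivial, h1, h2⟩

/-- The first uncountable ordinal. -/
noncomputable def nu : ZFSet.{u} := toZFSet ω₁

theorem g3 : G3 Set.univ omega nu.{u} := by
  intro μ hμ
  obtain ⟨a, ha, rfl⟩ := mem_toZFSet_iff.1 hμ
  have h1 : Countable (toZFSet a) := by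
    rw [← Cardinal.mk_le_aleph0_iff, cardinalMk_coe_sort, card_toZFSet, Cardinal.lift_le_aleph0,
      ← Order.lt_succ_iff, Cardinal.succ_aleph0, ← Cardinal.lt_ord, Cardinal.ord_aleph]
    exact ha
  obtain ⟨f, hf⟩ := exists_injective_nat (toZFSet a)
  obtain ⟨r, h2, h3⟩ := exists_fn (a := omega) (fun y => toZFSet (f y : Ordinal))
    (fun y y' h => hf (by exact_mod_cast toZFSet_injective h)) fun y => mem_omega.2 ⟨_, rfl⟩
  exact ⟨r, trivial, h2, h3⟩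

theorem exists_bound_nu {Q : Set ZFSet.{u}} (hQ : Q.Countable) (h : ∀ γ ∈ Q, γ ∈ nu) :
    ∃ b < ω₁, ∀ γ ∈ Q, γ ∈ toZFSet b := by
  have := hQ.to_subtype
  refine ⟨⨆ γ : Q, (γ.1.rank + 1), iSup_lt_omega_one fun γ => ?_, fun γ hγ => ?_⟩
  · obtain ⟨a, ha, h1⟩ := mem_toZFSet_iff.1 (h γ γ.2)
    rw [← h1, rank_toZFSet]
    exact (Cardinal.isSuccLimit_omega 1).add_one_lt ha
  · obtain ⟨a, ha, rfl⟩ := mem_toZFSet_iff.1 (h γ hγ)
    rw [toZFSet_mem_toZFSet_iff]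
    refine lt_of_lt_of_le ?_ (Ordinal.le_iSup (fun γ : Q => γ.1.rank + 1) ⟨_, hγ⟩)
    simp

theorem lim : Order.IsSuccLimit (ω₁ + ω : Ordinal.{u}) := isSuccLimit_add _ isSuccLimit_omega0

/-- The index set `V_(ω₁ + ω)`. -/
noncomputable def II : ZFSet.{u} := vonNeumann (ω₁ + ω)

theorem pair_mem_II {a b : ZFSet.{u}} (ha : a ∈ II) (hb : b ∈ II) : pair a b ∈ II := by
  simp only [II, mem_vonNeumann] at *
  rw [pair, ZFSet.rank_pair, ZFSet.rank_singleton, ZFSet.rank_pair]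
  exact max_lt (lim.succ_lt (lim.succ_lt ha))
    (lim.succ_lt (max_lt (lim.succ_lt ha) (lim.succ_lt hb)))

theorem prod_mem_II {a b : ZFSet.{u}} (ha : a ∈ II) (hb : b ∈ II) : a.prod b ∈ II := by
  have : a.prod b ⊆ powerset (powerset (a ∪ b)) := by
    intro z hz
    obtain ⟨x, hx, y, hy, rfl⟩ := mem_prod.1 hz
    simp only [mem_powerset, pair]
    intro w hw
    rw [mem_powerset]
    intro v hv
    rcases mem_pair.1 hw with rfl | rfl
    · rw [mem_singleton.1 hv]; exact mem_union.2 (Or.inl hx)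
    · rcases mem_pair.1 hv with rfl | rfl
      exacts [mem_union.2 (Or.inl hx), mem_union.2 (Or.inr hy)]
  refine mem_vonNeumann_of_subset this ?_
  simp only [II, mem_vonNeumann] at *
  rw [ZFSet.rank_powerset, ZFSet.rank_powerset, rank_union]
  exact lim.succ_lt (lim.succ_lt (max_lt ha hb))

theorem nu_mem_II : nu.{u} ∈ II := by
  rw [II, mem_vonNeumann, nu, rank_toZFSet]
  simp

theorem omega_mem_nu : omega.{u} ∈ nu := by
  rw [omega_eq, nu, toZFSet_mem_toZFSet_iff]; exact omega0_lt_omega_one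

theorem II_trans : II.{u}.IsTransitive := isTransitive_vonNeumann _

theorem omega_mem_II : omega.{u} ∈ II := II_trans _ nu_mem_II omega_mem_nu

theorem mem_II_of_finite {p : ZFSet.{u}} (hp : (p : Set ZFSet.{u}).Finite) (h : p ⊆ II) :
    p ∈ II := by
  have key : ∀ s : Set ZFSet.{u}, s.Finite → (∀ z ∈ s, z ∈ II) →
      ∃ a < ω₁ + ω, ∀ z ∈ s, z.rank < a := by
    intro s hs
    induction s, hs using Set.Finite.induction_on with
    | empty => exact fun _ => ⟨0, lim.pos, fun _ h => h.elim⟩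
    | @insert x s _ _ ih =>
      intro h
      obtain ⟨a, ha, H⟩ := ih fun z hz => h z (Set.mem_insert_of_mem _ hz)
      refine ⟨max a (x.rank + 1), max_lt ha (lim.add_one_lt
        (mem_vonNeumann.1 (h x (Set.mem_insert _ _)))), ?_⟩
      rintro z (rfl | hz)
      · exact lt_max_of_lt_right (lt_add_one _)
      · exact lt_max_of_lt_left (H z hz)
  obtain ⟨a, ha, H⟩ := key p hp fun z hz => h hz
  exact mem_vonNeumann.2 ((rank_le_iff.2 H).trans_lt ha)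

theorem exists_level {x : ZFSet.{u}} (hx : x ∈ II) : ∃ n : ℕ, x ∈ vonNeumann (ω₁ + n) := by
  obtain ⟨d, hd, h⟩ := (lt_add_iff_of_isSuccLimit isSuccLimit_omega0).1 (mem_vonNeumann.1 hx)
  obtain ⟨n, rfl⟩ := lt_omega0.1 hd
  exact ⟨n, mem_vonNeumann.2 h⟩

theorem level_mem_II (n : ℕ) : vonNeumann (ω₁ + n : Ordinal.{u}) ∈ II := by
  rw [II, vonNeumann_mem_vonNeumann_iff]
  simp

/-- Finite functions from `II × nu` to `omega`. -/
noncomputable def PP : ZFSet.{u} :=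
  (powerset ((II.prod nu).prod omega)).sep fun p => (p : Set ZFSet.{u}).Finite ∧ Fn p

noncomputable def LL : ZFSet.{u} := pairSep (fun q p => p ⊆ q) PP PP

theorem mem_PP {p : ZFSet.{u}} :
    p ∈ PP ↔ p ⊆ (II.prod nu).prod omega ∧ (p : Set ZFSet.{u}).Finite ∧ Fn p := by
  rw [PP, mem_sep, mem_powerset]

theorem mem_LL {q p : ZFSet.{u}} : pair q p ∈ LL ↔ q ∈ PP ∧ p ∈ PP ∧ p ⊆ q := by
  rw [LL, mem_pairSep]
  constructor
  · rintro ⟨a, ha, b, hb, h, h'⟩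
    obtain ⟨rfl, rfl⟩ := pair_inj.1 h
    exact ⟨ha, hb, h'⟩
  · rintro ⟨h1, h2, h3⟩
    exact ⟨q, h1, p, h2, rfl, h3⟩

theorem union_mem_PP {p q : ZFSet.{u}} (hp : p ∈ PP) (hq : q ∈ PP)
    (h : ∀ x k k', pair x k ∈ p → pair x k' ∈ q → k = k') : p ∪ q ∈ PP := by
  rw [mem_PP] at *
  refine ⟨fun z hz => (mem_union.1 hz).elim (fun h => hp.1 h) (fun h => hq.1 h), ?_, ?_⟩
  · rw [coe_union]; exact hp.2.1.union hq.2.1
  · intro a b h1 c h2
    rcases mem_union.1 h1 with h1 | h1 <;> rcases mem_union.1 h2 with h2 | h2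
    exacts [hp.2.2 a b h1 c h2, h a b c h1 h2, (h a c b h2 h1).symm, hq.2.2 a b h1 c h2]

theorem insert_mem_PP {p i α k : ZFSet.{u}} (hp : p ∈ PP) (hi : i ∈ II) (hα : α ∈ nu)
    (hk : k ∈ omega) (h : ∀ k', pair (pair i α) k' ∉ p) : insert (pair (pair i α) k) p ∈ PP := by
  rw [ZFSet.insert_eq]
  refine union_mem_PP (mem_PP.2 ⟨fun z hz => ?_, by simp, fun a b h1 c h2 => ?_⟩) hp ?_
  · rw [mem_singleton.1 hz]
    exact pair_mem_prod.2 ⟨pair_mem_prod.2 ⟨hi, hα⟩, hk⟩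
  · rw [(pair_inj.1 (mem_singleton.1 h1)).2, (pair_inj.1 (mem_singleton.1 h2)).2]
  · intro x a b h1 h2
    rw [(pair_inj.1 (mem_singleton.1 h1)).1] at h2
    exact (h b h2).elim

/-- Compatibility of conditions. -/
def Comp (p q : ZFSet.{u}) : Prop := ∃ s ∈ PP, p ⊆ s ∧ q ⊆ s

theorem ccc {A : Set ZFSet.{u}} (hA : ∀ p ∈ A, p ∈ PP) (h : A.Pairwise fun p q => ¬ Comp p q) :
    A.Countable := by
  have key : ∀ n m : ℕ, ∀ s : Set ZFSet.{u}, s.Finite → n ≤ s.ncard + m →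
      {p ∈ A | (p : Set ZFSet.{u}).ncard ≤ n ∧ s ⊆ p}.Countable := by
    intro n m
    induction m with
    | zero =>
      intro s hs hn
      refine Set.Subsingleton.countable fun p hp q hq => SetLike.coe_injective ?_
      have h1 := Set.eq_of_subset_of_ncard_le hp.2.2 (hp.2.1.trans hn) (mem_PP.1 (hA p hp.1)).2.1
      have h2 := Set.eq_of_subset_of_ncard_le hq.2.2 (hq.2.1.trans hn) (mem_PP.1 (hA q hq.1)).2.1
      exact h1.symm.trans h2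
    | succ m ih =>
      intro s hs hn
      rcases Set.eq_empty_or_nonempty {p ∈ A | (p : Set ZFSet.{u}).ncard ≤ n ∧ s ⊆ p} with
        h0 | ⟨p0, hp0⟩
      · rw [h0]; exact Set.countable_empty
      have h1 : ({p0} ∪ ⋃ z ∈ (p0 : Set ZFSet.{u}), ⋃ k ∈ (omega : Set ZFSet.{u}),
          ⋃ t ∈ {t | t ∉ s ∧ ∃ x k0, z = pair x k0 ∧ t = pair x k},
          {p ∈ A | (p : Set ZFSet.{u}).ncard ≤ n ∧ insert t s ⊆ p}).Countable := by
        refine (Set.countable_singleton _).union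
          ((mem_PP.1 (hA p0 hp0.1)).2.1.countable.biUnion fun z _ =>
            countable_omega.biUnion fun k _ => Set.Countable.biUnion ?_ fun t ht => ?_)
        · refine Set.Subsingleton.countable ?_
          rintro _ ⟨-, x, k0, h1, rfl⟩ _ ⟨-, x', k0', h2, rfl⟩
          rw [(pair_inj.1 (h1.symm.trans h2)).1]
        · refine ih _ (hs.insert t) ?_
          rw [Set.ncard_insert_of_notMem ht.1 hs]
          omega
      refine h1.mono fun p hp => ?_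
      by_cases hpp : p = p0
      · exact Or.inl hpp
      right
      have h2 := h hp0.1 hp.1 (Ne.symm hpp)
      have h3 : ¬ ∀ x k k', pair x k ∈ p0 → pair x k' ∈ p → k = k' := fun h3 =>
        h2 ⟨_, union_mem_PP (hA _ hp0.1) (hA _ hp.1) h3, fun z hz => mem_union.2 (Or.inl hz),
          fun z hz => mem_union.2 (Or.inr hz)⟩
      push Not at h3
      obtain ⟨x, k0, k, h4, h5, h6⟩ := h3
      simp only [Set.mem_iUnion]
      exact ⟨pair x k0, h4, k, (pair_mem_prod.1 ((mem_PP.1 (hA _ hp.1)).1 h5)).2, pair x k,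
        ⟨fun h7 => h6 ((mem_PP.1 (hA _ hp0.1)).2.2 x k0 h4 k (hp0.2.2 h7)), x, k0, rfl, rfl⟩,
        hp.1, hp.2.1, Set.insert_subset h5 hp.2.2⟩
  refine (Set.countable_iUnion fun n => key n n ∅ Set.finite_empty (by simp)).mono fun p hp => ?_
  exact Set.mem_iUnion.2 ⟨_, hp, le_rfl, Set.empty_subset _⟩

theorem exists_predense {D : Set ZFSet.{u}} (hD : ∀ p ∈ D, p ∈ PP)
    (h : ∀ p ∈ PP, ∃ r ∈ D, p ⊆ r) : ∃ A ⊆ D, A.Countable ∧ ∀ p ∈ PP, ∃ r ∈ A, Comp p r := by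
  obtain ⟨A, hA⟩ := zorn_subset {A | A ⊆ D ∧ A.Pairwise fun p q => ¬ Comp p q} (by
    intro c hc hch
    refine ⟨⋃₀ c, ⟨Set.sUnion_subset fun A hA => (hc hA).1, ?_⟩,
      fun A hA => Set.subset_sUnion_of_mem hA⟩
    rintro p ⟨A, hA, hp⟩ q ⟨B, hB, hq⟩ hpq
    rcases hch.total hA hB with h | h
    exacts [(hc hB).2 (h hp) hq hpq, (hc hA).2 hp (h hq) hpq])
  refine ⟨A, hA.prop.1, ccc (fun p hp => hD p (hA.prop.1 hp)) hA.prop.2, fun p hp => ?_⟩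
  obtain ⟨r, hr, hpr⟩ := h p hp
  by_contra hcon
  push Not at hcon
  have h1 : ∀ a ∈ A, ¬ Comp r a := fun a ha ⟨s, hs, h1, h2⟩ => hcon a ha ⟨s, hs, hpr.trans h1, h2⟩
  have h2 : insert r A ⊆ A := hA.le_of_ge ⟨Set.insert_subset hr hA.prop.1, by
    refine hA.prop.2.insert fun a ha _ => ⟨h1 a ha, fun ⟨s, hs, h2, h3⟩ => h1 a ha ⟨s, hs, h3, h2⟩⟩⟩
    (Set.subset_insert _ _)
  exact h1 r (h2 (Set.mem_insert _ _)) ⟨r, hD r hr, subset_rfl, subset_rfl⟩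

theorem g8 : G8 Set.univ omega nu PP LL.{u} := by
  intro W _ hW
  have h1 : ∀ n ∈ (omega : Set ZFSet.{u}),
      {γ | γ ∈ nu ∧ ∃ r ∈ PP, pair (pair n γ) r ∈ W}.Countable := by
    intro n hn
    have h2 : ∀ γ : {γ | γ ∈ nu ∧ ∃ r ∈ PP, pair (pair n γ) r ∈ W},
        ∃ r ∈ PP, pair (pair n γ.1) r ∈ W := fun γ => γ.2.2
    choose f hf1 hf2 using h2
    have h3 : ∀ γ γ', Comp (f γ) (f γ') → γ = γ' := fun γ γ' ⟨s, hs, h3, h4⟩ =>
      Subtype.ext (hW n hn _ γ.2.1 _ γ'.2.1 _ (hf2 γ) _ (hf2 γ') s (mem_LL.2 ⟨hs, hf1 γ, h3⟩)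
        (mem_LL.2 ⟨hs, hf1 γ', h4⟩))
    have h4 : (Set.range f).Countable := ccc (by rintro _ ⟨γ, rfl⟩; exact hf1 γ) (by
      rintro _ ⟨γ, rfl⟩ _ ⟨γ', rfl⟩ hne hc
      exact hne (congrArg f (h3 _ _ hc)))
    have h5 : Function.Injective f := fun γ γ' h =>
      h3 γ γ' ⟨f γ, hf1 γ, subset_rfl, h ▸ subset_rfl⟩
    have := h4.to_subtype
    exact Set.countable_coe_iff.1 (Set.rangeFactorization_injective.2 h5).countable
  obtain ⟨b, hb, H⟩ := exists_bound_nu (countable_omega.biUnion h1) (by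
    intro γ hγ
    simp only [Set.mem_iUnion] at hγ
    obtain ⟨n, -, h⟩ := hγ
    exact h.1)
  refine ⟨toZFSet b, toZFSet_mem_toZFSet_iff.2 hb, fun n hn γ hγ r hr h => H γ ?_⟩
  simp only [Set.mem_iUnion]
  exact ⟨n, hn, hγ, r, hr, h⟩

theorem g9 : G9 Set.univ omega nu II PP LL.{u} := by
  classical
  intro W _ hW
  have h1 : ∀ j : ZFSet.{u}, ∃ A : Set ZFSet.{u}, A.Countable ∧ (∀ r ∈ A, r ∈ PP ∧ pair j r ∈ W) ∧
      (j ∈ II.prod nu → ∀ p ∈ PP, ∃ r ∈ A, Comp p r) := by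
    intro j
    by_cases hj : j ∈ II.prod nu
    · obtain ⟨i, hi, α, hα, rfl⟩ := mem_prod.1 hj
      obtain ⟨A, h1, h2, h3⟩ := exists_predense (D := {r | r ∈ PP ∧ pair (pair i α) r ∈ W})
        (fun p hp => hp.1) (fun p hp => by
          obtain ⟨r, h1, h2⟩ := hW i hi α hα p hp
          exact ⟨r, ⟨(mem_LL.1 h1).1, h2⟩, (mem_LL.1 h1).2.2⟩)
      exact ⟨A, h2, h1, fun _ => h3⟩
    · exact ⟨∅, Set.countable_empty, fun _ h => h.elim, fun h => (hj h).elim⟩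
  choose A hA1 hA2 hA3 using h1
  have h2 : ∀ j, ∃ t : ℕ → ZFSet.{u}, ∀ r ∈ A j, ∀ i α k, pair (pair i α) k ∈ r → ∃ m, t m = i := by
    intro j
    have h3 : (⋃ r ∈ A j, ⋃ z ∈ (r : Set ZFSet.{u}),
        {i | ∃ α k, z = pair (pair i α) k}).Countable := by
      refine (hA1 j).biUnion fun r hr => (mem_PP.1 (hA2 j r hr).1).2.1.countable.biUnion
        fun z _ => Set.Subsingleton.countable ?_
      rintro i ⟨α, k, h1⟩ i' ⟨α', k', h2⟩
      exact (pair_inj.1 (pair_inj.1 (h1.symm.trans h2)).1).1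
    obtain ⟨t, ht⟩ := Set.countable_iff_exists_subset_range.1 h3
    refine ⟨t, fun r hr i α k h => ht ?_⟩
    simp only [Set.mem_iUnion]
    exact ⟨r, hr, _, h, α, k, rfl⟩
  choose t ht using h2
  let d : ℕ → ZFSet.{u} := fun n => (((vonNeumann (ω₁ + n)).prod nu).prod omega).sep
    fun z => ∀ j (m : ℕ), z = pair j (toZFSet m) → z ∉ t j m
  have hd1 : ∀ n, d n ∈ II := fun n => mem_vonNeumann_of_subset sep_subset
    (prod_mem_II (prod_mem_II (level_mem_II n) nu_mem_II) omega_mem_II)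
  have hd2 : ∀ n : ℕ, ∀ j ∈ (vonNeumann (ω₁ + n)).prod nu, ∀ m, t j m ≠ d n := by
    intro n j hj m h
    have h3 : pair j (toZFSet m) ∈ d n ↔ pair j (toZFSet m) ∉ t j m := by
      have h5 : toZFSet.{u} m ∈ omega := mem_omega.2 ⟨m, rfl⟩
      simp only [d, mem_sep, pair_mem_prod, hj, h5, true_and]
      refine ⟨fun h => h j m rfl, fun h j' m' h' => ?_⟩
      obtain ⟨rfl, h4⟩ := pair_inj.1 h'
      obtain rfl : m = m' := by exact_mod_cast toZFSet_injective h4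
      exact h
    rw [h] at h3
    exact iff_not_self h3
  have h3 : ∀ α : ZFSet.{u}, ∃ n : ℕ, α.rank % ω = n := fun α =>
    lt_omega0.1 (mod_lt _ omega0_ne_zero)
  choose hh hhh using h3
  refine ⟨range fun α : nu.{u} => pair α (d (hh α)), trivial, fun a b h c h' => ?_,
    fun α hα => ⟨_, hd1 _, mem_range.2 ⟨⟨α, hα⟩, rfl⟩⟩, fun i hi β hβ p hp => ?_⟩
  · obtain ⟨y, h⟩ := mem_range.1 h
    obtain ⟨y', h'⟩ := mem_range.1 h'
    obtain ⟨rfl, rfl⟩ := pair_inj.1 h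
    obtain ⟨h1, rfl⟩ := pair_inj.1 h'
    rw [h1]
  obtain ⟨n, hn⟩ := exists_level hi
  have h4 : ({β} ∪ ⋃ z ∈ (p : Set ZFSet.{u}), {α | ∃ i k, z = pair (pair i α) k}).Countable := by
    refine (Set.countable_singleton _).union ((mem_PP.1 hp).2.1.countable.biUnion
      fun z _ => Set.Subsingleton.countable ?_)
    rintro α ⟨i, k, h1⟩ α' ⟨i', k', h2⟩
    exact (pair_inj.1 (pair_inj.1 (h1.symm.trans h2)).1).2
  obtain ⟨b, hb, H⟩ := exists_bound_nu h4 (by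
    rintro γ (rfl | hγ)
    · exact hβ
    · simp only [Set.mem_iUnion] at hγ
      obtain ⟨z, hz, i, k, rfl⟩ := hγ
      exact (pair_mem_prod.1 (pair_mem_prod.1 ((mem_PP.1 hp).1 hz)).1).2)
  have h5 : ω * b + n < ω₁ := isPrincipal_add_omega 1
    (isPrincipal_mul_omega 1 omega0_lt_omega_one hb) ((natCast_lt_omega0 n).trans omega0_lt_omega_one)
  have h6 : toZFSet b ⊆ toZFSet (ω * b + n) :=
    toZFSet_subset_toZFSet_iff.2 ((le_mul_right b omega0_pos).trans le_self_add)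
  have h7 : hh (toZFSet (ω * b + n)) = n := by
    have := hhh (toZFSet (ω * b + n))
    rw [rank_toZFSet, mul_add_mod_self, mod_eq_of_lt (natCast_lt_omega0 n)] at this
    exact_mod_cast this.symm
  have hα : toZFSet (ω * b + n) ∈ nu := toZFSet_mem_toZFSet_iff.2 h5
  set α := toZFSet (ω * b + n)
  obtain ⟨r, hr, s, hs, h8, h9⟩ := hA3 (pair i α) (pair_mem_prod.2 ⟨hi, hα⟩) p hp
  have hr' := hA2 _ r hr
  refine ⟨α, hα, h6 (H β (Or.inl rfl)), r, hr'.1, hr'.2, fun i' hi' k hk => ?_⟩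
  obtain ⟨y, h10⟩ := mem_range.1 hi'
  obtain ⟨h11, rfl⟩ := pair_inj.1 h10
  rw [h11, h7]
  have h12 : p ∪ r ∈ PP := union_mem_PP hp hr'.1 fun x a c h h' =>
    (mem_PP.1 hs).2.2 x a (h8 h) c (h9 h')
  have h13 := insert_mem_PP h12 (hd1 n) hα hk (fun k' h => by
    rcases mem_union.1 h with h | h
    · refine mem_irrefl α (h6 (H α (Or.inr ?_)))
      simp only [Set.mem_iUnion]
      exact ⟨_, h, _, _, rfl⟩
    · obtain ⟨m, hm⟩ := ht _ r hr _ _ _ h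
      exact hd2 n _ (pair_mem_prod.2 ⟨hn, hα⟩) m hm)
  exact ⟨_, mem_LL.2 ⟨h13, hp, fun z hz => mem_insert_of_mem _ (mem_union.2 (Or.inl hz))⟩,
    mem_LL.2 ⟨h13, hr'.1, fun z hz => mem_insert_of_mem _ (mem_union.2 (Or.inr hz))⟩,
    mem_insert _ _⟩

theorem good_univ : Good (Set.univ : Set ZFSet.{u}) := by
  refine ⟨omega, trivial, nu, trivial, II, trivial, PP, trivial, LL, trivial,
    pairSep (fun p n => p ∈ vonNeumann (ω₁ + n.rank)) PP omega, trivial, isOmega_iff.2 rfl,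
    isOrdinal_toZFSet _, omega_mem_nu, II_trans _ omega_mem_II, g3, g4, ⟨?_, ?_, ?_, ?_⟩, ⟨?_, ?_⟩,
    ?_, g8, g9, ?_, ?_⟩
  · exact mem_PP.2 ⟨ZFSet.empty_subset _, by simp, fun _ _ h => (notMem_empty _ h).elim⟩
  · intro z hz
    obtain ⟨a, ha, b, hb, h, -⟩ := mem_pairSep.1 hz
    exact ⟨a, ha, b, hb, h⟩
  · exact fun p hp => mem_LL.2 ⟨hp, hp, subset_rfl⟩
  · intro r q h1 p h2
    rw [mem_LL] at *
    exact ⟨h1.1, h2.2.1, h2.2.2.trans h1.2.2⟩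
  · exact fun q p h => (mem_LL.1 h).2.2
  · exact fun p hp => ⟨(mem_PP.1 hp).2.2, fun x k h => (pair_mem_prod.1 ((mem_PP.1 hp).1 h)).2⟩
  · intro p hp i hi α hα
    by_cases h : ∃ k, pair (pair i α) k ∈ p
    · obtain ⟨k, hk⟩ := h
      exact ⟨p, mem_LL.2 ⟨hp, hp, subset_rfl⟩, k, (pair_mem_prod.1 ((mem_PP.1 hp).1 hk)).2, hk⟩
    · push Not at h
      exact ⟨_, mem_LL.2 ⟨insert_mem_PP hp hi hα omega_zero h, hp,
        fun z hz => mem_insert_of_mem _ hz⟩, ∅, omega_zero, mem_insert _ _⟩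
  · intro p hp
    obtain ⟨n, hn⟩ := exists_level (mem_II_of_finite (mem_PP.1 hp).2.1 fun z hz => by
      obtain ⟨x, hx, k, hk, rfl⟩ := mem_prod.1 ((mem_PP.1 hp).1 hz)
      obtain ⟨i, hi, α, hα, rfl⟩ := mem_prod.1 hx
      exact pair_mem_II (pair_mem_II hi (II_trans _ nu_mem_II hα)) (II_trans _ omega_mem_II hk))
    exact ⟨_, mem_omega.2 ⟨n, rfl⟩, mem_pairSep.2 ⟨p, hp, _, mem_omega.2 ⟨n, rfl⟩, rfl,
      by rwa [rank_toZFSet]⟩⟩
  · intro S _ n hn h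
    obtain ⟨m, rfl⟩ := mem_omega.1 hn
    refine mem_vonNeumann_of_subset (fun z hz => ?_) (prod_mem_II nu_mem_II (level_mem_II m))
    obtain ⟨ξ, hξ, p, -, rfl, h1⟩ := h z hz
    obtain ⟨a, -, b, -, h2, h3⟩ := mem_pairSep.1 h1
    obtain ⟨rfl, rfl⟩ := pair_inj.1 h2
    rw [rank_toZFSet] at h3
    exact pair_mem_prod.2 ⟨hξ, h3⟩

end Pool.Agent.P.MP_af0a18_lc
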